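import Pool.Agent.Y243.ManN.Moore

set_option autoImplicit false

namespace Pool.Agent.Results.MP_e17db7_gt.ManifoldsOfAllDimensions

/-- In ZFC, for every `n ≥ 3` there is a connected separable `n`-manifold (a Hausdorff space in
which every point has an open neighbourhood homeomorphic to `ℝⁿ`) which is a pseudocompact Moore
space (regular, with a development), locally compact and locally connected, but not normal, hence
not metrizable, and which has a sequence without cluster points, so that it is not countably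
compact. -/
theorem result :
    ∀ n : ℕ, 3 ≤ n → ∃ (X : Type) (_ : TopologicalSpace X),
      T2Space X ∧ RegularSpace X ∧
      (∃ G : ℕ → Set (Set X), (∀ n, ∀ V ∈ G n, IsOpen V) ∧ (∀ n, ⋃₀ G n = Set.univ) ∧
        ∀ (x : X) (U : Set X), IsOpen U → x ∈ U → ∃ n, ⋃₀ {V ∈ G n | x ∈ V} ⊆ U) ∧
      LocallyCompactSpace X ∧ LocallyConnectedSpace X ∧
      (∀ f : X → ℝ, Continuous f → ∃ C : ℝ, ∀ x, |f x| ≤ C) ∧
      ¬ TopologicalSpace.MetrizableSpace X ∧ ¬ NormalSpace X ∧
      ConnectedSpace X ∧ TopologicalSpace.SeparableSpace X ∧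
      (∀ x : X, ∃ U : Set X, IsOpen U ∧ x ∈ U ∧ Nonempty (U ≃ₜ EuclideanSpace ℝ (Fin n))) ∧
      Nonempty (ChartedSpace (EuclideanSpace ℝ (Fin n)) X) ∧
      ∃ u : ℕ → X, ∀ x : X, ¬ MapClusterPt x Filter.atTop u := by
  intro n hn
  obtain ⟨k, rfl⟩ := Nat.exists_eq_add_of_le hn
  obtain ⟨F⟩ := Pool.Agent.Helper761.exists_fam
  obtain ⟨b⟩ := Pool.Agent.Helper761.Sp.exists_index F
  obtain ⟨K, _, _, _, hK⟩ := Pool.Agent.Y243.ManN.exists_closed k
  obtain ⟨h1, h2, h3, h4, h5, h6⟩ := Pool.Agent.Y243.ManN.moore_manifold F b k K hK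
  refine ⟨Pool.Agent.Helper761.Sp F × K, inferInstance, inferInstance, inferInstance, h1,
    Pool.Agent.Y243.ManN.locEuclid_locallyCompact h4,
    Pool.Agent.Y243.ManN.locEuclid_locallyConnected h4, h2, ?_, h3, inferInstance, h5, h4,
    Pool.Agent.Y243.ManN.locEuclid_charted h4, h6⟩
  intro hm
  letI := TopologicalSpace.metrizableSpaceMetric (Pool.Agent.Helper761.Sp F × K)
  exact h3 inferInstance

end Pool.Agent.Results.MP_e17db7_gt.ManifoldsOfAllDimensions
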